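import Mathlib
import Pool.Agent.H.MP_28a56a_co.A

set_option autoImplicit false

namespace Pool.Agent.Results.MP_28a56a_co.Gap

open Pool.Agent.H.MP_28a56a_co Finset

section
variable {A B : Type} [DecidableEq A] [DecidableEq B]

/-- `(X, Y)` is a biclique of the bipartite graph with edge set `E` -/
def Bic (E : Finset (A × B)) (X : Finset A) (Y : Finset B) : Prop :=
  X.Nonempty ∧ Y.Nonempty ∧ X ×ˢ Y ⊆ E

noncomputable def kappa (E : Finset (A × B)) : ℝ :=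
  sSup {h | ∃ X Y, Bic E X Y ∧ h = (#X * #Y : ℝ) / (#X + #Y)}

noncomputable def eta (E E' : Finset (A × B)) : ℝ :=
  sInf {r | ∃ X Y, Bic E X Y ∧ (E' ∩ X ×ˢ Y).Nonempty ∧ r = (#X + #Y : ℝ) / #(E' ∩ X ×ˢ Y)}

noncomputable def etaStar (E : Finset (A × B)) : ℝ :=
  sSup {r | ∃ E' ⊆ E, E'.Nonempty ∧ r = #E' * eta E E'}

noncomputable def mu (E : Finset (A × B)) : ℝ :=
  sSup {r | ∃ A' B', (E ∩ A' ×ˢ B').Nonempty ∧ r = #(E ∩ A' ×ˢ B') / kappa (E ∩ A' ×ˢ B')}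

variable [Fintype A] [Fintype B]

omit [DecidableEq A] [DecidableEq B] in
theorem le_kappa {E : Finset (A × B)} {X : Finset A} {Y : Finset B} (h : Bic E X Y) :
    (#X * #Y : ℝ) / (#X + #Y) ≤ kappa E :=
  le_csSup ((Set.finite_range fun p : Finset A × Finset B =>
    (#p.1 * #p.2 : ℝ) / (#p.1 + #p.2)).subset
    (by rintro _ ⟨X, Y, -, rfl⟩; exact ⟨(X, Y), rfl⟩)).bddAbove ⟨X, Y, h, rfl⟩

omit [DecidableEq A] [DecidableEq B] [Fintype A] [Fintype B] in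
theorem bic_edge {E : Finset (A × B)} {e : A × B} (h : e ∈ E) : Bic E {e.1} {e.2} :=
  ⟨by simp, by simp, by simpa using h⟩

omit [DecidableEq A] [DecidableEq B] in
theorem half_le {E : Finset (A × B)} (h : E.Nonempty) : 1 / 2 ≤ kappa E := by
  obtain ⟨e, he⟩ := h
  have := le_kappa (bic_edge he)
  norm_num at this ⊢
  exact this

theorem mu_pos {E : Finset (A × B)} (h : E.Nonempty) : 0 < mu E := by
  have h' : (E ∩ univ ×ˢ univ).Nonempty := by simpa using h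
  refine lt_of_lt_of_le ?_ (le_csSup ((Set.finite_range fun p : Finset A × Finset B =>
    (#(E ∩ p.1 ×ˢ p.2) : ℝ) / kappa (E ∩ p.1 ×ˢ p.2)).subset
    (by rintro _ ⟨X, Y, -, rfl⟩; exact ⟨(X, Y), rfl⟩)).bddAbove ⟨univ, univ, h', rfl⟩)
  exact div_pos (by exact_mod_cast h'.card_pos) (lt_of_lt_of_le one_half_pos (half_le h'))

theorem le_etaStar {E E' : Finset (A × B)} (h : E' ⊆ E) (h' : E'.Nonempty) {t : ℕ} (ht : 0 < t)
    (hb : ∀ X Y, Bic E X Y → #(E' ∩ X ×ˢ Y) ≤ t * (#X + #Y)) : (#E' : ℝ) / t ≤ etaStar E := by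
  refine le_trans ?_ (le_csSup ((Set.finite_range fun F : Finset (A × B) =>
    (#F : ℝ) * eta E F).subset (by rintro _ ⟨X, -, -, rfl⟩; exact ⟨X, rfl⟩)).bddAbove
    ⟨E', h, h', rfl⟩)
  rw [div_eq_mul_one_div]
  refine mul_le_mul_of_nonneg_left (le_csInf ?_ ?_) (by positivity)
  · obtain ⟨e, he⟩ := h'
    exact ⟨_, _, _, bic_edge (h he), ⟨e, by simpa using he⟩, rfl⟩
  · rintro _ ⟨X, Y, h1, h2, rfl⟩
    rw [div_le_div_iff₀ (by exact_mod_cast ht) (by exact_mod_cast h2.card_pos), one_mul, mul_comm]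
    exact_mod_cast hb X Y h1

end

theorem main (k d : ℕ) (hk : 1 ≤ k) (hd : 1 ≤ d) : ∃ E : Finset (Vec k (d + 1) × Vec k (d + 1)),
    (∀ a, ∃ b, (a, b) ∈ E) ∧ (∀ b, ∃ a, (a, b) ∈ E) ∧ (2 ^ (k * d) : ℝ) /
      (16 * (k * (d + 1) + 3) * (2 * (k * (d + 1) + 1) * 2 ^ 2 ^ (d + 1))) ≤ etaStar E / mu E := by
  classical
  obtain ⟨F, hF⟩ : ∃ F : Finset (Vec k (d + 1) × Vec k (d + 1)),
      ∀ z, z ∈ F ↔ z.1 ≠ 0 ∧ z.2 ≠ 0 ∧ z.1 ⬝ᵥ z.2 = 0 :=
    ⟨univ.filter fun z => z.1 ≠ 0 ∧ z.2 ≠ 0 ∧ z.1 ⬝ᵥ z.2 = 0, fun z => by simp⟩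
  obtain ⟨N, hN, hN2, hN3⟩ := hit F (k * (d + 1) + 3) (by rw [card_vec, pow_add]; omega)
  obtain ⟨p, hp⟩ : ∃ p, p = 2 ^ (k * d) := ⟨_, rfl⟩
  obtain ⟨m, hm⟩ : ∃ m, m = 2 ^ (k * (d + 1)) := ⟨_, rfl⟩
  have p2 : 2 ≤ p := hp ▸ Nat.le_self_pow (by positivity) 2
  have m2 : 2 ≤ m := hm ▸ Nat.le_self_pow (by positivity) 2
  have hFc : (m - 1) * (p - 1) ≤ #F := by
    rw [card_eq_sum_card_fiberwise (f := Prod.fst) (t := univ.erase 0)
      (fun z hz => by simpa using ((hF z).mp hz).1)]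
    have := card_nsmul_le_sum (univ.erase (0 : Vec k (d + 1))) (fun x => #{z ∈ F | z.1 = x})
      (p - 1) fun x hx => by
        have a1 := many x
        rw [mul_add, mul_one, pow_add, ← hp] at a1
        have a2 := Nat.le_of_mul_le_mul_right a1 (by positivity)
        have a3 := pred_card_le_card_erase (s := {y : Vec k (d + 1) | x ⬝ᵥ y = 0}) (a := 0)
        refine le_trans (by omega) (card_le_card_of_injOn
          (s := ({y : Vec k (d + 1) | x ⬝ᵥ y = 0} : Finset _).erase 0) (fun y => (x, y))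
          (fun y hy => ?_) fun a _ b _ h => (Prod.mk.inj h).2)
        obtain ⟨h1, h2⟩ := mem_erase.mp hy
        exact mem_filter.mpr ⟨(hF _).mpr ⟨ne_of_mem_erase hx, h1, (mem_filter.mp h2).2⟩, rfl⟩
    rwa [card_erase_of_mem (mem_univ _), card_univ, card_vec, ← hm] at this
  have hE' : m * p ≤ 8 * #(F \ N) := by
    rw [card_sdiff_of_subset hN]
    obtain ⟨m, rfl⟩ := Nat.exists_eq_add_of_le m2
    obtain ⟨p, rfl⟩ := Nat.exists_eq_add_of_le p2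
    rw [show 2 + m - 1 = m + 1 by omega, show 2 + p - 1 = p + 1 by omega] at hFc
    have : (2 + m) * (2 + p) ≤ 4 * ((m + 1) * (p + 1)) := by nlinarith [Nat.zero_le (m * p)]
    omega
  have h0 : ∀ z : Vec k (d + 1) × Vec k (d + 1), z ∉ F → z ∈ Nᶜ := fun z h =>
    mem_compl.mpr fun h' => h (hN h')
  have hne : Nᶜ.Nonempty := ⟨(0, 0), h0 _ (by simp [hF])⟩
  refine ⟨Nᶜ, fun a => ⟨0, h0 _ (by simp [hF])⟩, fun b => ⟨0, h0 _ (by simp [hF])⟩, ?_⟩
  have e1 := le_etaStar (E := Nᶜ) (E' := F \ N) (fun z hz => mem_compl.mpr (mem_sdiff.mp hz).2)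
    (card_pos.mp (by nlinarith)) (t := k * (d + 1) + 3) (by omega) fun X Y h =>
      (card_le_card (inter_subset_inter_right sdiff_subset)).trans
        (hN3 X Y (disjoint_left.mpr fun z hz hz' => mem_compl.mp (h.2.2 hz') hz))
  obtain ⟨c, hc⟩ : ∃ c, c = 2 * (k * (d + 1) + 1) * 2 ^ 2 ^ (d + 1) := ⟨_, rfl⟩
  have c1 : 2 * (k * (d + 1) + 1) ≤ c := hc ▸ Nat.le_mul_of_pos_right _ (by positivity)
  have c2 : 2 * 2 ^ 2 ^ (d + 1) ≤ c := hc ▸ Nat.mul_le_mul_right _ (by omega)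
  have c3 : (4 : ℝ) ≤ c := by
    have : 1 ≤ k * (d + 1) := Nat.mul_pos hk (by omega)
    exact_mod_cast (show 4 ≤ c by omega)
  have m0 : (0 : ℝ) < m := by exact_mod_cast (show 0 < m by omega)
  have e2 : mu Nᶜ ≤ 2 * c * m := by
    refine csSup_le ⟨_, univ, univ, by simpa using hne, rfl⟩ ?_
    rintro _ ⟨A, B, h, rfl⟩
    have k1 := half_le h
    have k2 : (#(Nᶜ ∩ A ×ˢ B) : ℝ) ≤ #A * #B := by
      exact_mod_cast (card_le_card inter_subset_right).trans (card_product _ _).le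
    rw [div_le_iff₀ (lt_of_lt_of_le one_half_pos k1)]
    rcases rect A B with h' | ⟨X, hX, Y, hY, h1, h2, h3⟩
    · have : (#A * #B : ℝ) ≤ 4 * m := by rw [hm]; exact_mod_cast h'
      have := mul_le_mul_of_nonneg_left k1 (show (0 : ℝ) ≤ 2 * c * m by positivity)
      nlinarith
    · obtain ⟨z, hz⟩ := h
      have hz' := mem_product.mp (mem_inter.mp hz).2
      have a0 := card_pos.mpr ⟨_, hz'.1⟩
      have b0 := card_pos.mpr ⟨_, hz'.2⟩
      have a1 := h2.trans (Nat.mul_le_mul_right _ c1)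
      have b1 := h3.trans (Nat.mul_le_mul_right _ c2)
      have x0 : 0 < #X := Nat.pos_of_mul_pos_left (a0.trans_le a1)
      have y0 : 0 < #Y := Nat.pos_of_mul_pos_left (b0.trans_le b1)
      have k3 := le_kappa (E := Nᶜ ∩ A ×ˢ B) ⟨card_pos.mp x0, card_pos.mp y0, fun w hw => by
        rw [mem_product] at hw
        exact mem_inter.mpr ⟨h0 _ fun h => h1 _ hw.1 _ hw.2 ((hF _).mp h).2.2,
          mem_product.mpr ⟨hX hw.1, hY hw.2⟩⟩⟩
      have a2 : #A ≤ m := by rw [hm, ← card_vec]; exact card_le_univ _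
      have b2 : #B ≤ m := by rw [hm, ← card_vec]; exact card_le_univ _
      have k4 : #A * #B * (#X + #Y) ≤ 2 * c * m * (#X * #Y) := by
        have := Nat.mul_le_mul (Nat.mul_le_mul a1 b2) (le_refl #Y)
        have := Nat.mul_le_mul (Nat.mul_le_mul a2 b1) (le_refl #X)
        linarith
      refine k2.trans (le_trans ?_ (mul_le_mul_of_nonneg_left k3 (by positivity)))
      rw [← mul_div_assoc, le_div_iff₀ (by positivity)]
      exact_mod_cast k4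
  rw [le_div_iff₀ (mu_pos hne)]
  refine le_trans (mul_le_mul_of_nonneg_left e2 (by positivity)) (le_trans ?_ e1)
  have hc' : (2 * (k * (d + 1) + 1) * 2 ^ 2 ^ (d + 1) : ℝ) = c := by rw [hc]; push_cast; ring
  have hp' : (2 ^ (k * d) : ℝ) = p := by rw [hp]; push_cast; ring
  have : (m * p : ℝ) ≤ 8 * #(F \ N) := by exact_mod_cast hE'
  rw [hc', hp', div_mul_eq_mul_div, div_le_div_iff₀ (by positivity) (by positivity)]
  push_cast
  have := mul_le_mul_of_nonneg_left this (show (0 : ℝ) ≤ 2 * c * (k * (d + 1) + 3) by positivity)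
  linarith

/-- `g(n) ≥ n^(1-ε)` for all large `n`. -/
theorem result : ∀ ε : ℝ, 0 < ε → ∃ n0 : ℕ, ∀ n ≥ n0, ∃ (A B : Type) (_ : Fintype A) (_ : Fintype B)
    (_ : DecidableEq A) (_ : DecidableEq B) (E : Finset (A × B)), (∀ a, ∃ b, (a, b) ∈ E) ∧
      (∀ b, ∃ a, (a, b) ∈ E) ∧ Fintype.card A + Fintype.card B ≤ n ∧
        (n : ℝ) ^ (1 - ε) ≤ etaStar E / mu E := by
  intro ε hε
  obtain ⟨δ, h0, h1, h2⟩ : ∃ δ : ℝ, 0 < δ ∧ δ ≤ 1 ∧ δ ≤ ε := ⟨min 1 ε, by positivity, by simp, by simp⟩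
  obtain ⟨d, hd⟩ := exists_nat_gt (2 / δ)
  rw [div_lt_iff₀ h0] at hd
  have d1 : 1 ≤ d := by
    rcases d with _ | d
    · norm_num at hd
    · omega
  obtain ⟨C, hC⟩ : ∃ C : ℝ, C = 2 ^ (d + 2) * (16 * (d + 4) * (2 * (d + 2) * 2 ^ 2 ^ (d + 1))) :=
    ⟨_, rfl⟩
  have C0 : 0 < C := by rw [hC]; positivity
  obtain ⟨k0, hk0⟩ := Filter.eventually_atTop.mp
    (((tendsto_pow_const_div_const_pow_of_one_lt 2 one_lt_two).eventually
    (gt_mem_nhds (show (0 : ℝ) < 1 / C by positivity))).and (Filter.eventually_ge_atTop 1))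
  refine ⟨2 * (2 ^ (d + 1)) ^ k0, fun n hn => ?_⟩
  have q1 : 1 < 2 ^ (d + 1) := Nat.one_lt_two_pow (by omega)
  have n2 : (2 ^ (d + 1)) ^ k0 ≤ n / 2 := by omega
  have n0 : n / 2 ≠ 0 := (lt_of_lt_of_le (by positivity) n2).ne'
  obtain ⟨k, hk⟩ : ∃ k, k = Nat.log (2 ^ (d + 1)) (n / 2) := ⟨_, rfl⟩
  have k1 := Nat.pow_log_le_self (2 ^ (d + 1)) n0
  have k2 := Nat.lt_pow_succ_log_self q1 (n / 2)
  rw [← hk, ← pow_mul] at k1 k2
  rw [Nat.succ_eq_add_one] at k2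
  obtain ⟨k3, k4⟩ := hk0 k (hk ▸ Nat.le_log_of_pow_le q1 n2)
  obtain ⟨E, e1, e2, e3⟩ := main k d k4 d1
  refine ⟨_, _, inferInstance, inferInstance, inferInstance, inferInstance, E, e1, e2,
    by rw [card_vec, mul_comm]; omega, le_trans ?_ e3⟩
  have a1 : (n : ℝ) ^ (1 - ε) ≤ n ^ (1 - δ) :=
    Real.rpow_le_rpow_of_exponent_le (by exact_mod_cast (show 1 ≤ n by omega)) (by linarith)
  have a2 : (n : ℝ) ≤ 2 ^ (((d + 1) * (k + 1) + 1 : ℕ) : ℝ) := by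
    rw [Real.rpow_natCast]
    exact_mod_cast (show n ≤ 2 ^ ((d + 1) * (k + 1) + 1) by rw [pow_succ]; omega)
  have a3 := Real.rpow_le_rpow (by positivity) a2 (sub_nonneg.mpr h1)
  rw [← Real.rpow_mul (by norm_num)] at a3
  have kr : (1 : ℝ) ≤ k := by exact_mod_cast k4
  have a4 : (2 : ℝ) ^ ((((d + 1) * (k + 1) + 1 : ℕ) : ℝ) * (1 - δ)) ≤
      2 ^ (((k * d + (d + 2) : ℕ) : ℝ) - (k : ℕ)) := by
    refine Real.rpow_le_rpow_of_exponent_le one_le_two ?_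
    push_cast
    have := mul_le_mul_of_nonneg_left hd.le (show (0 : ℝ) ≤ k by positivity)
    have : (0 : ℝ) ≤ (d + k + 2) * δ := by positivity
    nlinarith
  rw [Real.rpow_sub two_pos, Real.rpow_natCast, Real.rpow_natCast, pow_add] at a4
  refine a1.trans (a3.trans (a4.trans ?_))
  rw [div_lt_div_iff₀ (by positivity) C0, one_mul] at k3
  rw [div_le_div_iff₀ (by positivity) (by positivity), mul_assoc]
  refine mul_le_mul_of_nonneg_left (le_trans ?_ k3.le) (by positivity)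
  rw [hC, mul_left_comm ((k : ℝ) ^ 2)]
  refine mul_le_mul_of_nonneg_left ?_ (show (0 : ℝ) ≤ 2 ^ (d + 2) by positivity)
  have b1 : (k : ℝ) * (d + 1) + 3 ≤ k * (d + 4) := by nlinarith
  have b2 : (k : ℝ) * (d + 1) + 1 ≤ k * (d + 2) := by nlinarith
  calc _ ≤ 16 * (k * (d + 4)) * (2 * (k * (d + 2)) * (2 : ℝ) ^ 2 ^ (d + 1)) := by gcongr
    _ = _ := by ring

end Pool.Agent.Results.MP_28a56a_co.Gap
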